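import Pool.Agent.helper54.STB.Spec

/-!
# sb:MNX (MP_70a088_an, rational class, START second case): the first return which is not straight exists (helper74)
-/

set_option autoImplicit false

open Complex Metric Set Filter Topology MeasureTheory
open STA

noncomputable section

namespace STB

theorem MNX_pts (F : Sys) (a : ℕ) (s : ℝ) (hs : 0 < s) (h : ∀ z ∈ ball (0 : ℂ) 1, ‖T F a z - s‖ ≤ s / 20) (k : ℕ) (hk : (k : ℝ) * s ≤ 1 / 100) :
    ∀ i : ℕ, i ≤ k → ‖F.f^[i * a] 0‖ ≤ (21 / 20) * ((i : ℝ) * s) := by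
  intro i
  induction i with
  | zero => intro _; simp
  | succ i ih =>
    intro hi
    have h1 := ih (by omega)
    have hik : (i : ℝ) * s ≤ (k : ℝ) * s := by
      have : (i : ℝ) ≤ k := by exact_mod_cast (by omega : i ≤ k)
      exact mul_le_mul_of_nonneg_right this hs.le
    have h2 : F.f^[i * a] 0 ∈ ball (0 : ℂ) 1 := by
      rw [mem_ball_zero_iff]
      linarith
    have h3 := h _ h2
    have h4 : F.f^[(i + 1) * a] 0 = F.f^[i * a] 0 + T F a (F.f^[i * a] 0) := by
      have : (i + 1) * a = a + i * a := by ring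
      rw [this, Function.iterate_add_apply]
      simp [T]
    rw [h4]
    have h5 : ‖T F a (F.f^[i * a] 0)‖ ≤ (21 / 20) * s := by
      have h6 : ‖T F a (F.f^[i * a] 0)‖ ≤ ‖T F a (F.f^[i * a] 0) - s‖ + ‖(s : ℂ)‖ := by
        have := norm_add_le (T F a (F.f^[i * a] 0) - s) (s : ℂ)
        simpa using this
      rw [Complex.norm_real, Real.norm_eq_abs, abs_of_pos hs] at h6
      linarith
    have h7 := norm_add_le (F.f^[i * a] 0) (T F a (F.f^[i * a] 0))
    push_cast
    nlinarith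

theorem MNX_sum (F : Sys) (W : ℂ → ℂ) (a : ℕ) (c : ℝ) (k : ℕ) (h : ∀ i : ℕ, i < k → ‖BW F W a (F.f^[i * a] 0) - 1‖ ≤ c) :
    ∀ i : ℕ, i ≤ k → (i : ℝ) * (1 - c) ≤ (BW F W (i * a) 0).re := by
  intro i
  induction i with
  | zero => intro _; simp [BW]
  | succ i ih =>
    intro hi
    have h1 := ih (by omega)
    have h2 := h i (by omega)
    have h3 : BW F W ((i + 1) * a) 0 = BW F W (i * a) 0 + BW F W a (F.f^[i * a] 0) := by
      have : (i + 1) * a = a + i * a := by ring
      rw [this]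
      simp only [BW, Function.iterate_add_apply]
      ring
    rw [h3, Complex.add_re]
    have h4 : |(BW F W a (F.f^[i * a] 0) - 1).re| ≤ c := (Complex.abs_re_le_norm _).trans h2
    rw [Complex.sub_re, Complex.one_re] at h4
    have h5 := (abs_le.1 h4).1
    push_cast
    nlinarith

theorem MNX (hBWB : BWB_stmt) : MNX_stmt := by
  intro θ hθ hθ1
  obtain ⟨C, hC, hB⟩ := hBWB
  refine ⟨min θ (min (1 / 1000) (1 / (2 * C))), by positivity, ?_⟩
  intro F s a M hM
  set κ := min θ (min (1 / 1000) (1 / (2 * C))) with hκ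
  have k1 : κ ≤ θ := min_le_left _ _
  have k2 : κ ≤ 1 / 1000 := (min_le_right _ _).trans (min_le_left _ _)
  have k3 : κ ≤ 1 / (2 * C) := (min_le_right _ _).trans (min_le_right _ _)
  have hs := hM.s0
  have hsk := hM.s1
  have hCs : C * s ≤ 1 / 2 := by
    have h1 : s ≤ 1 / (2 * C) := hsk.trans k3
    rw [le_div_iff₀ (by positivity)] at h1
    linarith
  have hga : ∀ z ∈ ball (0 : ℂ) 1, F.g a z := by
    intro z hz
    have h1 := hM.gm z hz
    have h2 : M = (M - a) + a := by have := hM.am; omega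
    rw [h2] at h1
    exact ((hM.ok.add _ _ _).1 h1).1
  have hTa : ∀ z ∈ ball (0 : ℂ) 1, ‖T F a z - s‖ ≤ s / 20 := by
    intro z hz
    have h1 := hM.va 0 (mem_ball_self one_pos) z hz
    rw [hM.ta, sub_zero, Complex.norm_real, Real.norm_eq_abs, abs_of_pos hs] at h1
    rw [mem_ball_zero_iff] at hz
    have h2 : (1 / 30 * ‖z‖ + κ) * s ≤ (1 / 20) * s := by
      apply mul_le_mul_of_nonneg_right _ hs.le
      linarith
    linarith
  obtain ⟨W, hW, hW1, -, -, -⟩ := hB F a s hM.ok hs (hsk.trans k2) hga hTa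
  have hns : ¬ ∃ k : ℕ, M = k * a ∧ (k : ℝ) * s ≤ 10 * θ := by
    rintro ⟨k, hk, hks⟩
    have hks1 : (k : ℝ) * s ≤ 1 / 100 := by linarith
    have hk2 : 2 ≤ k := by
      by_contra hlt
      have h1 := hM.am
      have h2 := hM.a1
      have : k = 0 ∨ k = 1 := by omega
      rcases this with h | h <;> subst h <;> simp at hk <;> omega
    have hp := MNX_pts F a s hs hTa k hks1
    have hsum := MNX_sum F W a (C * s) k (by
      intro i hi
      apply hW1
      rw [mem_ball_zero_iff]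
      have h1 := hp i hi.le
      have h2 : (i : ℝ) * s ≤ (k : ℝ) * s := by
        have : (i : ℝ) ≤ k := by exact_mod_cast hi.le
        exact mul_le_mul_of_nonneg_right this hs.le
      linarith) k le_rfl
    rw [← hk] at hsum
    have hre := hM.re W hW
    have h3 := (abs_le.1 hre).2
    have h4 : (2 : ℝ) ≤ k := by exact_mod_cast hk2
    nlinarith
  have hex : ∃ m : ℕ, a < m ∧ ‖T F m 0‖ ≤ θ ∧ ¬ ∃ k : ℕ, m = k * a ∧ (k : ℝ) * s ≤ 10 * θ :=
    ⟨M, hM.am, (hM.tm 0 (mem_ball_self one_pos)).trans k1, hns⟩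
  classical
  refine ⟨Nat.find hex, Nat.find_min' hex ⟨hM.am, (hM.tm 0 (mem_ball_self one_pos)).trans k1, hns⟩, ?_⟩
  have hf := Nat.find_spec hex
  refine ⟨hf.1, hf.2.1, hf.2.2, ?_⟩
  intro i hi1 hi2 hi3
  by_contra hno
  exact Nat.find_min hex hi2 ⟨hi1, hi3, hno⟩

end STB
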